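import Pool.Agent.U503.SPR.Stm

/-! Project SPR, package DIS (helper981): the product of homeomorphisms with disjoint supports. -/

set_option autoImplicit false

open Set Filter Topology Function
open Pool.Agent.Y453.HB Pool.Agent.R773.HN Pool.Agent.N235.DH

namespace Pool.Agent.U981.SPR

theorem supp_map {n : ℕ} {A : Set (E n)} {f : E n ≃ₜ E n} (h : Supp A f) {y : E n} (hy : y ∈ A) :
    f y ∈ A := by
  by_contra hn
  have h1 : f (f y) = f y := h (f y) hn
  have h2 : f y = y := f.injective h1
  exact hn (by rw [h2]; exact hy)

theorem t_DIS : Pool.Agent.U503.SPR.S_DIS := by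
  intro n L
  induction L with
  | zero =>
    intro f A _ _
    exact ⟨fun i hi => absurd hi (Nat.not_lt_zero _), fun y _ => by simp⟩
  | succ L ih =>
    intro f A hS hd
    obtain ⟨h1, h2⟩ := ih f A (fun i hi => hS i (by omega))
      (fun i hi j hj hij => hd i (by omega) j (by omega) hij)
    have hp : (List.ofFn (fun i : Fin (L + 1) => f i)).prod =
        (List.ofFn (fun i : Fin L => f i)).prod * f L := by
      rw [List.ofFn_succ', List.concat_eq_append, List.prod_append, List.prod_singleton]
      rfl
    have hv : ∀ y, (List.ofFn (fun i : Fin (L + 1) => f i)).prod y =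
        (List.ofFn (fun i : Fin L => f i)).prod (f L y) := by
      intro y
      rw [hp]
      rfl
    refine ⟨fun i hi y hy => ?_, fun y hy => ?_⟩
    · rw [hv]
      rcases Nat.lt_succ_iff_lt_or_eq.1 hi with h | h
      · have h3 : y ∉ A L := fun h4 =>
          Set.disjoint_left.1 (hd i hi L (by omega) (by omega)) hy h4
        rw [hS L (by omega) y h3]
        exact h1 i h y hy
      · subst h
        have h3 := supp_map (hS i hi) hy
        exact h2 (f i y) fun j hj h4 =>
          Set.disjoint_left.1 (hd j (by omega) i hi (by omega)) h4 h3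
    · rw [hv, hS L (by omega) y (hy L (by omega))]
      exact h2 y fun i hi => hy i (by omega)

end Pool.Agent.U981.SPR
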